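import Mathlib

/-!
# Barely independent families and the splitting number
-/

open Set Cardinal

namespace N841.BI

/-- The Boolean combination of the members of `𝒜` given by `h`: the points that lie in `A`
for the `A ∈ 𝒜` with `h A = false` and outside `A` for the `A ∈ 𝒜` with `h A = true`. -/
def BoolComb {X : Type} (𝒜 : Set (Set X)) (h : Set X → Bool) : Set X :=
  {x | ∀ A ∈ 𝒜, (x ∈ A ↔ h A = false)}

/-- Barely independent families of subsets of `X` (over the cardinal `#X`). -/
def BarelyIndependent {X : Type} (𝓘 : Set (Set X)) : Prop :=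
  𝓘.Infinite ∧ (∀ A ∈ 𝓘, #A = #X) ∧
    (∀ 𝒜 ⊆ 𝓘, 𝒜.Finite → ∀ h : Set X → Bool, #(BoolComb 𝒜 h) = #X) ∧
    ∀ 𝒜 ⊆ 𝓘, 𝒜.Countable → 𝒜.Infinite → ∀ h : Set X → Bool, #(BoolComb 𝒜 h) < #X

/-- `S` splits `R`. -/
def Splits (S R : Set ℕ) : Prop := (R ∩ S).Infinite ∧ (R \ S).Infinite

/-- Every infinite subset of `ω` is split by all but fewer than `#X` of the sets `S x`. -/
def TailSplitting {X : Type} (S : X → Set ℕ) : Prop :=
  ∀ R : Set ℕ, R.Infinite → #{x | ¬ Splits (S x) R} < #X

/-- The splitting number `𝔰`. -/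
noncomputable def splittingNumber : Cardinal.{0} :=
  sInf {κ | ∃ 𝒮 : Set (Set ℕ), #𝒮 = κ ∧ ∀ R : Set ℕ, R.Infinite → ∃ S ∈ 𝒮, Splits S R}

/-- The reaping number `𝔯`. -/
noncomputable def reapingNumber : Cardinal.{0} :=
  sInf {κ | ∃ ℛ : Set (Set ℕ), #ℛ = κ ∧ (∀ R ∈ ℛ, R.Infinite) ∧
    ¬ ∃ S : Set ℕ, ∀ R ∈ ℛ, Splits S R}

section
variable {X : Type}

lemma aleph0_lt (hX : ℵ₀ < (#X).ord.cof) : ℵ₀ < #X :=
  hX.trans_le (by simpa using Ordinal.cof_le_card (#X).ord)

/-- A union of fewer than `cof #X` small sets is small. -/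
lemma small_iUnion (hX : ℵ₀ < (#X).ord.cof) {ι : Type} (hι : #ι < (#X).ord.cof)
    {V : ι → Set X} (hV : ∀ i, #(V i) < #X) : #(⋃ i, V i) < #X := by
  refine (Cardinal.mk_iUnion_le V).trans_lt ?_
  refine Cardinal.mul_lt_of_lt (aleph0_lt hX).le
    (hι.trans_le (by simpa using Ordinal.cof_le_card (#X).ord)) ?_
  exact Cardinal.iSup_lt_of_lt_cof_ord hι hV

lemma small_union (hX : ℵ₀ < (#X).ord.cof) {V W : Set X} (hV : #V < #X) (hW : #W < #X) :
    #(V ∪ W : Set X) < #X :=
  (Cardinal.mk_union_le V W).trans_lt (Cardinal.add_lt_of_lt (aleph0_lt hX).le hV hW)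

/-- From a barely independent family to a tail splitting sequence. -/
lemma tail_of_barely (hX : ℵ₀ < (#X).ord.cof) {𝓘 : Set (Set X)} (h𝓘 : BarelyIndependent 𝓘) :
    ∃ S : X → Set ℕ, TailSplitting S := by
  obtain ⟨hinf, -, -, hbare⟩ := h𝓘
  let A : ℕ ↪ 𝓘 := hinf.natEmbedding
  refine ⟨fun x => {n | x ∈ (A n).1}, fun R hR => ?_⟩
  let V : ℕ × Bool → Set X := fun p => {x | ∀ n ∈ R, p.1 ≤ n → (x ∈ (A n).1 ↔ p.2 = false)}
  have hV : ∀ p, #(V p) < #X := by
    rintro ⟨k, i⟩
    have hR' : {n ∈ R | k ≤ n}.Infinite := by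
      intro hfin
      refine hR ((hfin.union (Set.finite_lt_nat k)).subset fun n hn => ?_)
      rcases le_or_gt k n with h | h
      · exact Or.inl ⟨hn, h⟩
      · exact Or.inr h
    have hinj : Function.Injective fun n => (A n).1 := fun m n h => A.injective (Subtype.ext h)
    have hsub : (fun n => (A n).1) '' {n ∈ R | k ≤ n} ⊆ 𝓘 := by
      rintro _ ⟨n, -, rfl⟩
      exact (A n).2
    have := hbare _ hsub ((Set.to_countable _).image _) (hR'.image hinj.injOn) (fun _ => i)
    refine (Cardinal.mk_le_mk_of_subset ?_).trans_lt this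
    rintro x hx _ ⟨n, hn, rfl⟩
    exact hx n hn.1 hn.2
  refine (Cardinal.mk_le_mk_of_subset ?_).trans_lt
    (small_iUnion hX (ι := ℕ × Bool) (by simpa using hX) hV)
  intro x hx
  have hx' : ¬ Splits {n | x ∈ (A n).1} R := hx
  unfold Splits at hx'
  rw [not_and_or, Set.not_infinite, Set.not_infinite] at hx'
  rw [Set.mem_iUnion]
  rcases hx' with h | h
  · obtain ⟨k, hk⟩ := h.bddAbove
    refine ⟨(k + 1, true), fun n hn hkn => ?_⟩
    simp only [Bool.true_eq_false, iff_false]
    intro hxn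
    have := hk ⟨hn, hxn⟩
    have h3 : k + 1 ≤ n := hkn
    omega
  · obtain ⟨k, hk⟩ := h.bddAbove
    refine ⟨(k + 1, false), fun n hn hkn => ?_⟩
    simp only [iff_true]
    by_contra hxn
    have := hk ⟨hn, hxn⟩
    have h3 : k + 1 ≤ n := hkn
    omega

/-- The cell of the points `x` with `S x ∩ F = T ∩ F`. -/
def cell (S : X → Set ℕ) (F : Finset ℕ) (T : Set ℕ) : Set X := {x | ∀ n ∈ F, (n ∈ S x ↔ n ∈ T)}

/-- All cells are large. -/
def Good (S : X → Set ℕ) (F : Finset ℕ) : Prop := ∀ T : Set ℕ, #(cell S F T) = #X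

lemma good_mono {S : X → Set ℕ} {F G : Finset ℕ} (h : F ⊆ G) (hG : Good S G) : Good S F := by
  intro T
  refine le_antisymm (Cardinal.mk_set_le _) ?_
  rw [← hG T]
  exact Cardinal.mk_le_mk_of_subset fun x hx n hn => hx n (h hn)

lemma finite_bad (hX : ℵ₀ < (#X).ord.cof) {S : X → Set ℕ} (hS : TailSplitting S)
    {C : Set X} (hC : #C = #X) :
    {n | #(C ∩ {x | n ∈ S x} : Set X) < #X ∨ #(C \ {x | n ∈ S x} : Set X) < #X}.Finite := by
  have key : ∀ (P : ℕ → Set X), (∀ R : Set ℕ, R.Infinite →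
      (∀ n ∈ R, #(C ∩ P n : Set X) < #X) → #{x | ∀ n ∈ R, x ∉ P n} < #X → False) := by
    intro P R hR hP hsmall
    have h1 : C ⊆ (⋃ n : R, C ∩ P n.1) ∪ {x | ∀ n ∈ R, x ∉ P n} := by
      intro x hx
      by_cases h : ∀ n ∈ R, x ∉ P n
      · exact Or.inr h
      · push Not at h
        obtain ⟨n, hn, hxn⟩ := h
        exact Or.inl (Set.mem_iUnion.2 ⟨⟨n, hn⟩, hx, hxn⟩)
    have h2 : #(⋃ n : R, C ∩ P n.1 : Set X) < #X := by
      refine small_iUnion hX (ι := R) ?_ (fun n => hP n.1 n.2)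
      exact (Cardinal.mk_le_aleph0 (α := R)).trans_lt hX
    have h3 := (Cardinal.mk_le_mk_of_subset h1).trans_lt (small_union hX h2 hsmall)
    rw [hC] at h3
    exact lt_irrefl _ h3
  by_contra hinf
  have hinf' : ({n | #(C ∩ {x | n ∈ S x} : Set X) < #X} ∪
      {n | #(C \ {x | n ∈ S x} : Set X) < #X}).Infinite := hinf
  rcases Set.infinite_union.1 hinf' with h | h
  · refine key (fun n => {x | n ∈ S x}) _ h (fun n hn => hn) ?_
    refine (Cardinal.mk_le_mk_of_subset ?_).trans_lt (hS _ h)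
    intro x hx hsp
    refine hsp.1 ?_
    convert Set.finite_empty
    ext n
    simp only [Set.mem_inter_iff, Set.mem_empty_iff_false, iff_false, not_and]
    intro hn
    exact hx n hn
  · refine key (fun n => {x | n ∉ S x}) _ h (fun n hn => ?_) ?_
    · have : (C ∩ {x | n ∉ S x} : Set X) = C \ {x | n ∈ S x} := rfl
      rw [this]
      exact hn
    · refine (Cardinal.mk_le_mk_of_subset ?_).trans_lt (hS _ h)
      intro x hx hsp
      refine hsp.2 ?_
      convert Set.finite_empty
      ext n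
      simp only [Set.mem_sdiff, Set.mem_empty_iff_false, iff_false, not_and, not_not]
      intro hn
      have := hx n hn
      simpa using this

open Classical in
lemma good_step (hX : ℵ₀ < (#X).ord.cof) {S : X → Set ℕ} (hS : TailSplitting S)
    (F : Finset ℕ) (hF : Good S F) : ∃ n, n ∉ F ∧ Good S (insert n F) := by
  have hfin : (⋃ T ∈ F.powerset, {n | #(cell S F (T : Set ℕ) ∩ {x | n ∈ S x} : Set X) < #X ∨
      #(cell S F (T : Set ℕ) \ {x | n ∈ S x} : Set X) < #X}).Finite := by
    refine Set.Finite.biUnion (Finset.finite_toSet _) fun T _ => ?_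
    exact finite_bad hX hS (hF T)
  obtain ⟨n, hn⟩ := (hfin.union F.finite_toSet).exists_notMem
  refine ⟨n, fun h => hn (Or.inr h), fun T => ?_⟩
  refine le_antisymm (Cardinal.mk_set_le _) ?_
  have h1 : (F.filter (· ∈ T)) ∈ F.powerset := Finset.mem_powerset.2 (Finset.filter_subset _ _)
  have h2 : ¬ (#(cell S F ((F.filter (· ∈ T) : Finset ℕ) : Set ℕ) ∩ {x | n ∈ S x} : Set X) < #X ∨
      #(cell S F ((F.filter (· ∈ T) : Finset ℕ) : Set ℕ) \ {x | n ∈ S x} : Set X) < #X) := by
    intro h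
    exact hn (Or.inl (Set.mem_biUnion h1 h))
  rw [not_or, not_lt, not_lt] at h2
  have h3 : ∀ x ∈ cell S F ((F.filter (· ∈ T) : Finset ℕ) : Set ℕ), ∀ m ∈ F,
      (m ∈ S x ↔ m ∈ T) := by
    intro x hx m hm
    have := hx m hm
    simpa [hm] using this
  by_cases hT : n ∈ T
  · refine h2.1.trans (Cardinal.mk_le_mk_of_subset ?_)
    rintro x ⟨hx, hxn⟩ m hm
    rcases Finset.mem_insert.1 hm with rfl | hm'
    · exact iff_of_true hxn hT
    · exact h3 x hx m hm'
  · refine h2.2.trans (Cardinal.mk_le_mk_of_subset ?_)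
    rintro x ⟨hx, hxn⟩ m hm
    rcases Finset.mem_insert.1 hm with rfl | hm'
    · exact iff_of_false hxn hT
    · exact h3 x hx m hm'

lemma good_empty (S : X → Set ℕ) : Good S ∅ := by
  intro T
  have : cell S ∅ T = Set.univ := by
    ext x
    simp [cell]
  rw [this, Cardinal.mk_univ]

open Classical in
/-- An infinite set of indices all of whose finite subsets are good. -/
lemma exists_good_set (hX : ℵ₀ < (#X).ord.cof) {S : X → Set ℕ} (hS : TailSplitting S) :
    ∃ M : Set ℕ, M.Infinite ∧ ∀ F : Finset ℕ, (F : Set ℕ) ⊆ M → Good S F := by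
  have hstep : ∀ F : {F : Finset ℕ // Good S F}, ∃ n, n ∉ F.1 ∧ Good S (insert n F.1) :=
    fun F => good_step hX hS F.1 F.2
  choose f hf using hstep
  obtain ⟨G, hG0, hG⟩ : ∃ G : ℕ → {F : Finset ℕ // Good S F}, (G 0).1 = ∅ ∧
      ∀ k, (G (k + 1)).1 = insert (f (G k)) (G k).1 :=
    ⟨fun k => Nat.rec ⟨∅, good_empty S⟩ (fun _ F => ⟨insert (f F) F.1, (hf F).2⟩) k,
      rfl, fun k => rfl⟩
  have hmono : Monotone fun k => (G k).1 := by
    refine monotone_nat_of_le_succ fun k => ?_
    show (G k).1 ≤ (G (k + 1)).1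
    rw [hG]
    exact Finset.subset_insert _ _
  have hcard : ∀ k, (G k).1.card = k := by
    intro k
    induction k with
    | zero => rw [hG0]; rfl
    | succ k ih => rw [hG, Finset.card_insert_of_notMem (hf (G k)).1, ih]
  refine ⟨⋃ k, ((G k).1 : Set ℕ), ?_, ?_⟩
  · intro hfin
    obtain ⟨N, hN⟩ : ∃ N : Finset ℕ, (N : Set ℕ) = ⋃ k, ((G k).1 : Set ℕ) :=
      ⟨hfin.toFinset, by simp⟩
    have h1 : (G (N.card + 1)).1 ⊆ N := by
      intro n hn
      have : n ∈ (N : Set ℕ) := by
        rw [hN]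
        exact Set.mem_iUnion.2 ⟨N.card + 1, Finset.mem_coe.2 hn⟩
      exact this
    have h2 := Finset.card_le_card h1
    rw [hcard] at h2
    omega
  · intro F hF
    have h1 : ∀ n ∈ F, ∃ k, n ∈ (G k).1 := by
      intro n hn
      have := hF hn
      simpa using this
    have h2 : ∃ k, F ⊆ (G k).1 := by
      choose! g hg using h1
      refine ⟨F.sup g, fun n hn => ?_⟩
      exact hmono (Finset.le_sup hn) (hg n hn)
    obtain ⟨k, hk⟩ := h2
    exact good_mono hk (G k).2

open Classical in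
/-- From a tail splitting sequence to a barely independent family. -/
lemma barely_of_tail (hX : ℵ₀ < (#X).ord.cof) {S : X → Set ℕ} (hS : TailSplitting S) :
    ∃ 𝓘 : Set (Set X), BarelyIndependent 𝓘 := by
  obtain ⟨M, hM, hgood⟩ := exists_good_set hX hS
  let B : ℕ → Set X := fun n => {x | n ∈ S x}
  have h0 : #X ≠ 0 := ((Cardinal.aleph0_pos).trans (aleph0_lt hX)).ne'
  have hinj : Set.InjOn B M := by
    intro m hm n hn hmn
    by_contra hne
    have hg := hgood {m, n} (by
      intro a ha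
      simp only [Finset.coe_insert, Finset.coe_singleton, Set.mem_insert_iff,
        Set.mem_singleton_iff] at ha
      rcases ha with rfl | rfl
      · exact hm
      · exact hn) {m}
    have h1 : #(cell S {m, n} {m}) ≠ 0 := by rw [hg]; exact h0
    rw [Cardinal.mk_ne_zero_iff] at h1
    obtain ⟨x, hx⟩ := h1
    have h2 : m ∈ S x := (hx m (by simp)).2 rfl
    have h3 : n ∉ S x := fun h => hne ((hx n (by simp)).1 h).symm
    have h4 : x ∈ B m := h2
    rw [hmn] at h4
    exact h3 h4
  refine ⟨B '' M, hM.image hinj, ?_, ?_, ?_⟩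
  · rintro _ ⟨n, hn, rfl⟩
    have hg := hgood {n} (by simpa using hn) {n}
    rw [← hg]
    refine congrArg _ ?_
    have : B n = cell S {n} {n} := by
      ext x
      simp [B, cell]
    rw [this]
  · intro 𝒜 h𝒜 hfin h
    obtain ⟨F, hF, rfl⟩ : ∃ F : Finset ℕ, (F : Set ℕ) ⊆ M ∧ B '' F = 𝒜 := by
      obtain ⟨u, hu, rfl⟩ := Set.subset_image_iff.1 h𝒜
      have hufin : u.Finite := Set.Finite.of_finite_image hfin (hinj.mono hu)
      exact ⟨hufin.toFinset, by simpa using hu, by simp⟩
    rw [← hgood F hF {n | h (B n) = false}]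
    refine congrArg _ ?_
    have : BoolComb (B '' (F : Set ℕ)) h = cell S F {n | h (B n) = false} := by
      ext x
      simp [BoolComb, cell, B]
    rw [this]
  · intro 𝒜 h𝒜 _ hinf h
    let R : Set ℕ := {n ∈ M | B n ∈ 𝒜}
    have hR : B '' R = 𝒜 := by
      ext A
      constructor
      · rintro ⟨n, hn, rfl⟩
        exact hn.2
      · intro hA
        obtain ⟨n, hn, rfl⟩ := h𝒜 hA
        exact ⟨n, ⟨hn, hA⟩, rfl⟩
    have hRinf : R.Infinite := by
      intro hfin
      apply hinf
      rw [← hR]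
      exact hfin.image _
    have hsplit : R = {n ∈ R | h (B n) = false} ∪ {n ∈ R | h (B n) = true} := by
      ext n
      constructor
      · intro hn
        cases hb : h (B n)
        · exact Or.inl ⟨hn, hb⟩
        · exact Or.inr ⟨hn, hb⟩
      · rintro (hn | hn)
        · exact hn.1
        · exact hn.1
    rw [hsplit] at hRinf
    rcases Set.infinite_union.1 hRinf with h1 | h1
    · refine (Cardinal.mk_le_mk_of_subset ?_).trans_lt (hS _ h1)
      intro x hx hsp
      refine hsp.2 ?_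
      convert Set.finite_empty
      ext n
      simp only [Set.mem_sdiff, Set.mem_empty_iff_false, iff_false, not_and, not_not]
      intro hn
      exact (hx (B n) hn.1.2).2 hn.2
    · refine (Cardinal.mk_le_mk_of_subset ?_).trans_lt (hS _ h1)
      intro x hx hsp
      refine hsp.1 ?_
      convert Set.finite_empty
      ext n
      simp only [Set.mem_inter_iff, Set.mem_empty_iff_false, iff_false, not_and]
      intro hn hxn
      have := (hx (B n) hn.1.2).1 hxn
      rw [hn.2] at this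
      simp at this

/-- A tail splitting sequence bounds the splitting number. -/
lemma splitting_le {S : X → Set ℕ} (hS : TailSplitting S) : splittingNumber ≤ #X := by
  have h1 : splittingNumber ≤ #(Set.range S) := by
    refine csInf_le' ⟨Set.range S, rfl, fun R hR => ?_⟩
    by_contra hcon
    push Not at hcon
    have h2 : {x | ¬ Splits (S x) R} = Set.univ := by
      ext x
      simp only [Set.mem_univ, iff_true]
      exact hcon (S x) ⟨x, rfl⟩
    have h3 := hS R hR
    rw [h2, Cardinal.mk_univ] at h3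
    exact lt_irrefl _ h3
  exact h1.trans Cardinal.mk_range_le

/-- A tail splitting sequence bounds the reaping number from below. -/
lemma cof_le_reaping (hX : ℵ₀ < (#X).ord.cof) {S : X → Set ℕ} (hS : TailSplitting S) :
    (#X).ord.cof ≤ reapingNumber := by
  refine le_csInf ⟨#{R : Set ℕ | R.Infinite}, {R : Set ℕ | R.Infinite}, rfl, fun R hR => hR, ?_⟩ ?_
  · rintro ⟨S, hS⟩
    have hinf : (S ∪ Sᶜ).Infinite := by
      rw [Set.union_compl_self]
      exact Set.infinite_univ
    rcases Set.infinite_union.1 hinf with h | h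
    · exact (hS S h).2 (by simp)
    · exact (hS Sᶜ h).1 (by simp)
  · rintro κ ⟨ℛ, rfl, hinf, hℛ⟩
    by_contra hcon
    rw [not_le] at hcon
    apply hℛ
    have h1 : #(⋃ R : ℛ, {x | ¬ Splits (S x) R.1}) < #X :=
      small_iUnion hX hcon fun R => hS R.1 (hinf R.1 R.2)
    have h2 : ∃ x, x ∉ ⋃ R : ℛ, {x | ¬ Splits (S x) R.1} := by
      by_contra h
      push Not at h
      rw [Set.eq_univ_of_forall h, Cardinal.mk_univ] at h1
      exact lt_irrefl _ h1
    obtain ⟨x, hx⟩ := h2
    refine ⟨S x, fun R hR => ?_⟩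
    by_contra hsp
    exact hx (Set.mem_iUnion.2 ⟨⟨R, hR⟩, hsp⟩)

end

end N841.BI
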